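import Pool.Agent.W555.KS.Defs

/-! KS-PL. -/

set_option autoImplicit false

namespace Pool.Agent.W101.KS.PL

open Finset Pool.Agent.W555.KS

variable {N : Type} [CommRing N]

lemma sq0 (h2 : (2 : N) = 0) {ι : Type} (s : Finset ι) (x : ι → N) (hx : ∀ i, x i * x i = 0) :
    (∑ i ∈ s, x i) * (∑ i ∈ s, x i) = 0 := by
  classical
  induction s using Finset.induction_on with
  | empty => simp
  | insert a s ha ih =>
    rw [sum_insert ha]
    linear_combination hx a + ih + (x a * ∑ i ∈ s, x i) * h2

lemma prod_one_add {ι : Type} (s : Finset ι) (y : N) (hy : y * y = 0) (t : ι → N) :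
    ∏ i ∈ s, (1 + y * t i) = 1 + y * ∑ i ∈ s, t i := by
  classical
  induction s using Finset.induction_on with
  | empty => simp
  | insert a s ha ih =>
    rw [prod_insert ha, sum_insert ha, ih]
    linear_combination (t a * ∑ i ∈ s, t i) * hy

/-- product over the pairs `i < j` -/
lemma pairs (m : ℕ) (f : Fin m → Fin m → N) :
    ∏ p ∈ (univ : Finset (Fin m × Fin m)).filter (fun p => p.1 < p.2), f p.1 p.2
      = ∏ j : Fin m, ∏ i : Fin m, if i < j then f i j else 1 := by
  rw [prod_filter, Fintype.prod_prod_type, prod_comm]

theorem pl : StPl := by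
  intro N _ h2 m
  induction m with
  | zero => intro e b c _; simp
  | succ m ih =>
    intro e b c he
    have hlast := ih (fun i => e i.castSucc) (fun i => b i.castSucc) (fun i => c i.castSucc)
      (fun i => he _)
    rw [pairs m (fun i j => 1 + e i.castSucc * e j.castSucc *
      (b i.castSucc * c j.castSucc + b j.castSucc * c i.castSucc))] at hlast
    rw [pairs (m + 1) (fun i j => 1 + e i * e j * (b i * c j + b j * c i))]
    rw [Fin.prod_univ_castSucc]
    have e1 : ∀ j : Fin m, (∏ i : Fin (m + 1), if i < j.castSucc then
        1 + e i * e j.castSucc * (b i * c j.castSucc + b j.castSucc * c i) else 1)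
        = ∏ i : Fin m, if i < j then 1 + e i.castSucc * e j.castSucc *
          (b i.castSucc * c j.castSucc + b j.castSucc * c i.castSucc) else 1 := by
      intro j
      rw [Fin.prod_univ_castSucc, if_neg (by exact not_lt.2 (Fin.le_last _)), mul_one]
      refine prod_congr rfl fun i _ => ?_
      simp only [Fin.castSucc_lt_castSucc_iff]
    have e2 : (∏ i : Fin (m + 1), if i < Fin.last m then
        1 + e i * e (Fin.last m) * (b i * c (Fin.last m) + b (Fin.last m) * c i) else 1)
        = 1 + e (Fin.last m) * ∑ i : Fin m, e i.castSucc *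
          (b i.castSucc * c (Fin.last m) + b (Fin.last m) * c i.castSucc) := by
      rw [Fin.prod_univ_castSucc, if_neg (lt_irrefl _), mul_one, ← prod_one_add _ _ (he _)]
      refine prod_congr rfl fun i _ => ?_
      rw [if_pos (Fin.castSucc_lt_last i)]
      ring
    rw [e2, prod_congr rfl fun j _ => e1 j, hlast, Fin.sum_univ_castSucc, Fin.sum_univ_castSucc]
    have hB := sq0 h2 univ (fun i : Fin m => b i.castSucc * e i.castSucc)
      (fun i => by linear_combination (b i.castSucc * b i.castSucc) * he i.castSucc)
    have hC := sq0 h2 univ (fun i : Fin m => c i.castSucc * e i.castSucc)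
      (fun i => by linear_combination (c i.castSucc * c i.castSucc) * he i.castSucc)
    have e3 : ∑ i : Fin m, e i.castSucc *
          (b i.castSucc * c (Fin.last m) + b (Fin.last m) * c i.castSucc)
        = c (Fin.last m) * (∑ i : Fin m, b i.castSucc * e i.castSucc)
          + b (Fin.last m) * ∑ i : Fin m, c i.castSucc * e i.castSucc := by
      rw [mul_sum, mul_sum, ← sum_add_distrib]
      exact sum_congr rfl fun i _ => by ring
    rw [e3]
    have hl := he (Fin.last m)
    generalize (∑ i : Fin m, b i.castSucc * e i.castSucc) = B at *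
    generalize (∑ i : Fin m, c i.castSucc * e i.castSucc) = C at *
    linear_combination (C * e (Fin.last m) * c (Fin.last m)) * hB
      + (B * e (Fin.last m) * b (Fin.last m)) * hC - (b (Fin.last m) * c (Fin.last m)) * hl

end Pool.Agent.W101.KS.PL
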