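import Pool.Agent.W488.KS.Stm
import Pool.Agent.W927.PG.Coord

/-! Project KS (helper488): the Hodge operator of a Clifford module is the spin operator. -/

set_option autoImplicit false

open Matrix Finset Module

namespace Pool.Agent.W101.KS

open Pool.Agent.W544.PG Pool.Agent.W488.KS

noncomputable section

variable {n a : ℕ}

/-- the complex bilinear extension -/
def GG (G : Fin n → Fin n → Matrix (Fin a) (Fin a) ℚ) (u v : Fin n → ℂ) :
    Matrix (Fin a) (Fin a) ℂ := ∑ i, ∑ j, (u i * v j) • mC (G i j)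

/-- the bilinear form -/
def bb (Q : Matrix (Fin n) (Fin n) ℚ) (u v : Fin n → ℂ) : ℂ :=
  ∑ i, ∑ j, (u i * v j) * (Q i j : ℂ)

theorem mC_add (A B : Matrix (Fin a) (Fin a) ℚ) : mC (A + B) = mC A + mC B := by
  ext i j; simp [mC]

theorem mC_mul (A B : Matrix (Fin a) (Fin a) ℚ) : mC (A * B) = mC A * mC B := by
  ext i j; simp [mC, Matrix.mul_apply]

theorem mC_smul (c : ℚ) (A : Matrix (Fin a) (Fin a) ℚ) : mC (c • A) = (c : ℂ) • mC A := by
  ext i j; simp [mC]

theorem mC_one : mC (1 : Matrix (Fin a) (Fin a) ℚ) = 1 := by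
  ext i j; simp [mC, Matrix.one_apply]; split_ifs <;> simp

theorem R1 (Q : Matrix (Fin n) (Fin n) ℚ) (G : Fin n → Fin n → Matrix (Fin a) (Fin a) ℚ)
    (h : ∀ i j, G i j + G j i = (2 * Q i j) • (1 : Matrix (Fin a) (Fin a) ℚ)) (u v : Fin n → ℂ) :
    GG G u v + GG G v u = (2 * bb Q u v) • (1 : Matrix (Fin a) (Fin a) ℂ) := by
  have h' : ∀ i j, mC (G i j) + mC (G j i) =
      (2 * (Q i j : ℂ)) • (1 : Matrix (Fin a) (Fin a) ℂ) := by
    intro i j
    rw [← mC_add, h, mC_smul, mC_one]; push_cast; rfl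
  have e : GG G v u = ∑ i, ∑ j, (u i * v j) • mC (G j i) := by
    rw [GG, Finset.sum_comm]
    refine Finset.sum_congr rfl fun i _ => Finset.sum_congr rfl fun j _ => ?_
    rw [mul_comm]
  rw [e, GG, ← Finset.sum_add_distrib, bb, Finset.mul_sum, Finset.sum_smul]
  refine Finset.sum_congr rfl fun i _ => ?_
  rw [← Finset.sum_add_distrib, Finset.mul_sum, Finset.sum_smul]
  refine Finset.sum_congr rfl fun j _ => ?_
  rw [← smul_add, h', smul_smul]
  congr 1; ring

theorem GG_mul (G : Fin n → Fin n → Matrix (Fin a) (Fin a) ℚ) (u v w z : Fin n → ℂ) :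
    GG G u v * GG G w z =
      ∑ i, ∑ j, ∑ k, ∑ l, (u i * v j * (w k * z l)) • (mC (G i j) * mC (G k l)) := by
  rw [GG, Finset.sum_mul]
  refine Finset.sum_congr rfl fun i _ => ?_
  rw [Finset.sum_mul]
  refine Finset.sum_congr rfl fun j _ => ?_
  rw [GG, Finset.mul_sum]
  refine Finset.sum_congr rfl fun k _ => ?_
  rw [Finset.mul_sum]
  refine Finset.sum_congr rfl fun l _ => ?_
  rw [smul_mul_smul_comm]

theorem R2 (Q : Matrix (Fin n) (Fin n) ℚ) (G : Fin n → Fin n → Matrix (Fin a) (Fin a) ℚ)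
    (h : ∀ i j k l, G i j * G k l + G i k * G j l = (2 * Q j k) • G i l)
    (u v w z : Fin n → ℂ) :
    GG G u v * GG G w z + GG G u w * GG G v z = (2 * bb Q v w) • GG G u z := by
  have h' : ∀ i j k l, mC (G i j) * mC (G k l) + mC (G i k) * mC (G j l) =
      (2 * (Q j k : ℂ)) • mC (G i l) := by
    intro i j k l
    rw [← mC_mul, ← mC_mul, ← mC_add, h, mC_smul]; push_cast; rfl
  have e : GG G u w * GG G v z =
      ∑ i, ∑ j, ∑ k, ∑ l, (u i * v j * (w k * z l)) • (mC (G i k) * mC (G j l)) := by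
    rw [GG_mul]
    refine Finset.sum_congr rfl fun i _ => ?_
    rw [Finset.sum_comm]
    refine Finset.sum_congr rfl fun j _ => Finset.sum_congr rfl fun k _ =>
      Finset.sum_congr rfl fun l _ => ?_
    congr 1; ring
  rw [e, GG_mul, ← Finset.sum_add_distrib]
  have e2 : (2 * bb Q v w) • GG G u z = ∑ i, ∑ j, ∑ k, ∑ l,
      (u i * v j * (w k * z l)) • ((2 * (Q j k : ℂ)) • mC (G i l)) := by
    rw [GG, Finset.smul_sum]
    refine Finset.sum_congr rfl fun i _ => ?_
    rw [Finset.smul_sum]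
    have : ∀ l, (2 * bb Q v w) • (u i * z l) • mC (G i l) = ∑ j, ∑ k,
        (u i * v j * (w k * z l)) • ((2 * (Q j k : ℂ)) • mC (G i l)) := by
      intro l
      rw [bb, Finset.mul_sum, Finset.sum_smul]
      refine Finset.sum_congr rfl fun j _ => ?_
      rw [Finset.mul_sum, Finset.sum_smul]
      refine Finset.sum_congr rfl fun k _ => ?_
      rw [smul_smul, smul_smul]
      congr 1; ring
    rw [Finset.sum_congr rfl fun l _ => this l, Finset.sum_comm]
    refine Finset.sum_congr rfl fun j _ => ?_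
    rw [Finset.sum_comm]
  rw [e2]
  refine Finset.sum_congr rfl fun i _ => ?_
  rw [← Finset.sum_add_distrib]
  refine Finset.sum_congr rfl fun j _ => ?_
  rw [← Finset.sum_add_distrib]
  refine Finset.sum_congr rfl fun k _ => ?_
  rw [← Finset.sum_add_distrib]
  refine Finset.sum_congr rfl fun l _ => ?_
  rw [← smul_add, h']

theorem R3 (x : Matrix (Fin n) (Fin n) ℂ) (y : Matrix (Fin a) (Fin a) ℂ)
    (G : Fin n → Fin n → Matrix (Fin a) (Fin a) ℚ)
    (h : ∀ i j, y * mC (G i j) - mC (G i j) * y =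
      ∑ l, (x l i • mC (G l j) + x l j • mC (G i l))) (u v : Fin n → ℂ) :
    y * GG G u v - GG G u v * y = GG G (x *ᵥ u) v + GG G u (x *ᵥ v) := by
  have e1 : y * GG G u v - GG G u v * y =
      ∑ i, ∑ j, (u i * v j) • ∑ l, (x l i • mC (G l j) + x l j • mC (G i l)) := by
    rw [GG, Finset.mul_sum, Finset.sum_mul, ← Finset.sum_sub_distrib]
    refine Finset.sum_congr rfl fun i _ => ?_
    rw [Finset.mul_sum, Finset.sum_mul, ← Finset.sum_sub_distrib]
    refine Finset.sum_congr rfl fun j _ => ?_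
    rw [mul_smul_comm, smul_mul_assoc, ← smul_sub, h]
  have e2 : GG G (x *ᵥ u) v = ∑ i, ∑ j, (u i * v j) • ∑ l, x l i • mC (G l j) := by
    have : GG G (x *ᵥ u) v = ∑ l, ∑ j, ∑ i, (u i * v j) • (x l i • mC (G l j)) := by
      refine Finset.sum_congr rfl fun l _ => Finset.sum_congr rfl fun j _ => ?_
      rw [Matrix.mulVec, dotProduct, Finset.sum_mul, Finset.sum_smul]
      refine Finset.sum_congr rfl fun i _ => ?_
      rw [smul_smul]; congr 1; ring
    rw [this]
    simp only [Finset.smul_sum]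
    rw [Finset.sum_congr rfl fun l _ => Finset.sum_comm, Finset.sum_comm]
    refine Finset.sum_congr rfl fun i _ => ?_
    rw [Finset.sum_comm]
  have e3 : GG G u (x *ᵥ v) = ∑ i, ∑ j, (u i * v j) • ∑ l, x l j • mC (G i l) := by
    refine Finset.sum_congr rfl fun i _ => ?_
    have : ∀ l, (u i * (x *ᵥ v) l) • mC (G i l) = ∑ j, (u i * v j) • (x l j • mC (G i l)) := by
      intro l
      rw [Matrix.mulVec, dotProduct, Finset.mul_sum, Finset.sum_smul]
      refine Finset.sum_congr rfl fun j _ => ?_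
      rw [smul_smul]; congr 1; ring
    rw [Finset.sum_congr rfl fun l _ => this l]
    simp only [Finset.smul_sum]
    rw [Finset.sum_comm]
  rw [e1, e2, e3, ← Finset.sum_add_distrib]
  refine Finset.sum_congr rfl fun i _ => ?_
  rw [← Finset.sum_add_distrib]
  refine Finset.sum_congr rfl fun j _ => ?_
  rw [← smul_add, ← Finset.sum_add_distrib]

theorem GG_smul_left (G : Fin n → Fin n → Matrix (Fin a) (Fin a) ℚ) (c : ℂ) (u v : Fin n → ℂ) :
    GG G (c • u) v = c • GG G u v := by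
  rw [GG, GG, Finset.smul_sum]
  refine Finset.sum_congr rfl fun i _ => ?_
  rw [Finset.smul_sum]
  refine Finset.sum_congr rfl fun j _ => ?_
  rw [smul_smul, Pi.smul_apply, smul_eq_mul, mul_assoc]

theorem GG_smul_right (G : Fin n → Fin n → Matrix (Fin a) (Fin a) ℚ) (c : ℂ) (u v : Fin n → ℂ) :
    GG G u (c • v) = c • GG G u v := by
  rw [GG, GG, Finset.smul_sum]
  refine Finset.sum_congr rfl fun i _ => ?_
  rw [Finset.smul_sum]
  refine Finset.sum_congr rfl fun j _ => ?_
  rw [smul_smul, Pi.smul_apply, smul_eq_mul]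
  congr 1; ring

/-- the algebra -/
theorem alg (y Z Z2 A B C D : Matrix (Fin a) (Fin a) ℂ) (hy : (4 : ℂ) • (y * y) = 1)
    (hZ : y * Z - Z * y = -Z) (hZ2 : y * Z2 - Z2 * y = Z2) (hA : A * Z = C) (hB : B * Z2 = D)
    (hCD : C + D = (2 : ℂ) • (1 : Matrix (Fin a) (Fin a) ℂ)) :
    y = (1 / 4 : ℂ) • (C - D) := by
  have h1 : y * Z = Z * y - Z := by rw [sub_eq_iff_eq_add.mp hZ]; abel
  have h2 : y * Z2 = Z2 * y + Z2 := by rw [sub_eq_iff_eq_add.mp hZ2]; abel
  have h3 : (2 : ℂ) • (Z * y) = Z := by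
    have e : y * (y * Z) = Z * (y * y) - (2 : ℂ) • (Z * y) + Z := by
      rw [h1, mul_sub, ← mul_assoc, h1, sub_mul, mul_assoc, two_smul]; abel
    have e2 : (4 : ℂ) • (y * (y * Z)) = Z := by
      rw [← mul_assoc, ← smul_mul_assoc, hy, one_mul]
    have e3 : (4 : ℂ) • (Z * (y * y)) = Z := by
      rw [← mul_smul_comm, hy, mul_one]
    rw [e, smul_add, smul_sub, e3, smul_smul] at e2
    have e4 : (4 : ℂ) • Z = (8 : ℂ) • (Z * y) := by
      have : Z - (4 * 2 : ℂ) • (Z * y) + (4 : ℂ) • Z = Z := e2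
      have h5 : (4 : ℂ) • Z - (4 * 2 : ℂ) • (Z * y) = 0 := by
        calc (4 : ℂ) • Z - (4 * 2 : ℂ) • (Z * y)
            = (Z - (4 * 2 : ℂ) • (Z * y) + (4 : ℂ) • Z) - Z := by abel
          _ = 0 := by rw [this, sub_self]
      rw [sub_eq_zero] at h5
      rw [h5]; norm_num
    have : (1 / 4 : ℂ) • ((4 : ℂ) • Z) = (1 / 4 : ℂ) • ((8 : ℂ) • (Z * y)) := by rw [e4]
    rw [smul_smul, smul_smul] at this
    norm_num at this
    exact this.symm
  have h4 : (2 : ℂ) • (Z2 * y) = -Z2 := by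
    have e : y * (y * Z2) = Z2 * (y * y) + (2 : ℂ) • (Z2 * y) + Z2 := by
      rw [h2, mul_add, ← mul_assoc, h2, add_mul, mul_assoc, two_smul]; abel
    have e2 : (4 : ℂ) • (y * (y * Z2)) = Z2 := by
      rw [← mul_assoc, ← smul_mul_assoc, hy, one_mul]
    have e3 : (4 : ℂ) • (Z2 * (y * y)) = Z2 := by
      rw [← mul_smul_comm, hy, mul_one]
    rw [e, smul_add, smul_add, e3, smul_smul] at e2
    have h5 : (4 * 2 : ℂ) • (Z2 * y) + (4 : ℂ) • Z2 = 0 := by
      calc (4 * 2 : ℂ) • (Z2 * y) + (4 : ℂ) • Z2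
          = (Z2 + (4 * 2 : ℂ) • (Z2 * y) + (4 : ℂ) • Z2) - Z2 := by abel
        _ = 0 := by rw [e2, sub_self]
    have h6 : (4 * 2 : ℂ) • (Z2 * y) = -((4 : ℂ) • Z2) := eq_neg_of_add_eq_zero_left h5
    have : (1 / 4 : ℂ) • ((4 * 2 : ℂ) • (Z2 * y)) = (1 / 4 : ℂ) • (-((4 : ℂ) • Z2)) := by rw [h6]
    rw [smul_neg, smul_smul, smul_smul] at this
    norm_num at this
    exact this
  have h5 : (2 : ℂ) • (C * y) = C := by
    rw [← hA, mul_assoc, ← mul_smul_comm, h3]
  have h6 : (2 : ℂ) • (D * y) = -D := by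
    rw [← hB, mul_assoc, ← mul_smul_comm, h4, mul_neg]
  have h7 : (4 : ℂ) • y = C - D := by
    calc (4 : ℂ) • y = (2 : ℂ) • ((C + D) * y) := by
          rw [hCD, smul_mul_assoc, one_mul, smul_smul]; norm_num
      _ = C - D := by rw [add_mul, smul_add, h5, h6]; abel
  rw [← h7, smul_smul]; norm_num

theorem B0_sq' (p q : ℕ) : B0 p q * B0 p q = 1 := by
  unfold B0
  ext i j
  rcases i with i | i | i <;> rcases j with j | j | j <;>
    simp [Matrix.mul_apply, Fintype.sum_sum_type, fromBlocks, fromCols, fromRows,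
      Matrix.one_apply] <;> rfl

theorem Q_mul_inv (T : HS n) {p q : ℕ} (g : Matrix (Fin n) (I p q) ℂ)
    (hg : g * (gᴴ * T.H) = 1) : mC T.Q * mC T.Q⁻¹ = 1 := by
  have h1 : (g * gᴴ) * mC T.Q * ((2 : ℂ) • (T.x * T.x) - 1) = 1 := by
    have e : (g * gᴴ) * mC T.Q * ((2 : ℂ) • (T.x * T.x) - 1) = g * (gᴴ * T.H) := by
      rw [HS.H]; simp only [Matrix.mul_assoc]
    rw [e, hg]
  have h3 : (mC T.Q).det ≠ 0 := by
    intro h
    have := congrArg Matrix.det h1
    rw [Matrix.det_mul, Matrix.det_mul, h, mul_zero, zero_mul, Matrix.det_one] at this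
    exact zero_ne_one this
  have h4 : T.Q.det ≠ 0 := by
    intro h
    apply h3
    have h5 : (mC T.Q).det = ((T.Q.det : ℚ) : ℂ) := by
      have := (RingHom.map_det (Rat.castHom ℂ) T.Q)
      simpa [mC] using this.symm
    rw [h5, h, Rat.cast_zero]
  rw [← mC_mul, Matrix.mul_nonsing_inv _ (isUnit_iff_ne_zero.2 h4), mC_one]

theorem bb_col (Q : Matrix (Fin n) (Fin n) ℚ) {p q : ℕ} (g : Matrix (Fin n) (I p q) ℂ)
    (hg : gᵀ * mC Q * g = B0 p q) (s t : I p q) :
    bb Q (fun i => g i s) (fun j => g j t) = B0 p q s t := by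
  rw [← hg, bb, Matrix.mul_apply, Finset.sum_comm]
  refine Finset.sum_congr rfl fun j _ => ?_
  rw [Matrix.mul_apply, Finset.sum_mul]
  refine Finset.sum_congr rfl fun i _ => ?_
  simp only [Matrix.transpose_apply, mC, Matrix.map_apply]
  ring

theorem x_col (x : Matrix (Fin n) (Fin n) ℂ) {p q : ℕ} (g : Matrix (Fin n) (I p q) ℂ)
    (hg : x * g = g * x0 p q) (s : I p q) :
    x *ᵥ (fun i => g i s) = fun i => ∑ t, g i t * x0 p q t s := by
  funext i
  have := congrFun (congrFun hg i) s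
  rw [Matrix.mul_apply, Matrix.mul_apply] at this
  exact this

theorem spin : S_spin := by
  intro n a T A G hn htr h1 h2 h3
  obtain ⟨q, hq⟩ : ∃ q, n = 2 * 1 + q := ⟨n - 2, by omega⟩
  obtain ⟨g, gQ, -, gH, gx⟩ := Pool.Agent.W927.PG.coord n 1 q T
    (by rw [htr]; norm_num) hq
  have hq0 : 0 < q := by omega
  let k0 : Fin q := ⟨0, hq0⟩
  let om : Fin n → ℂ := fun i => g i (Sum.inl 0)
  let uu : Fin n → ℂ := fun i => g i (Sum.inr (Sum.inl k0))
  let ob : Fin n → ℂ := fun i => g i (Sum.inr (Sum.inr 0))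
  have xom : T.x *ᵥ om = (1 : ℂ) • om := by
    rw [x_col T.x g gx]; funext i
    simp [x0, big0, Fintype.sum_sum_type, Matrix.fromBlocks, om, Matrix.one_apply]
  have xuu : T.x *ᵥ uu = (0 : ℂ) • uu := by
    rw [x_col T.x g gx]; funext i
    simp [x0, big0, Fintype.sum_sum_type, Matrix.fromBlocks, uu, Matrix.one_apply]
  have xob : T.x *ᵥ ob = (-1 : ℂ) • ob := by
    rw [x_col T.x g gx]; funext i
    simp [x0, big0, Fintype.sum_sum_type, Matrix.fromBlocks, ob, Matrix.one_apply]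
  have b1 : bb T.Q uu uu = 1 := by
    rw [bb_col T.Q g gQ]; simp [B0, Matrix.fromBlocks, Matrix.fromCols, Matrix.fromRows]
  have b2 : bb T.Q om ob = 1 := by
    rw [bb_col T.Q g gQ]; simp [B0, Matrix.fromBlocks, Matrix.fromCols, Matrix.fromRows]
  have mulc : ∀ v w : Fin n → ℂ, GG G v uu * GG G uu w = GG G v w := by
    intro v w
    have h := R2 T.Q G h2 v uu uu w
    rw [b1] at h
    have h' : (2 : ℂ) • (GG G v uu * GG G uu w) = (2 : ℂ) • GG G v w := by
      rw [two_smul, h, mul_one]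
    exact smul_right_injective _ (two_ne_zero) h'
  have key := alg A.y (GG G uu ob) (GG G uu om) (GG G om uu) (GG G ob uu) (GG G om ob)
    (GG G ob om) A.sq
    (by rw [R3 T.x A.y G h3, xuu, xob, GG_smul_left, GG_smul_right]; simp)
    (by rw [R3 T.x A.y G h3, xuu, xom, GG_smul_left, GG_smul_right]; simp)
    (mulc om ob) (mulc ob om)
    (by rw [R1 T.Q G h1, b2, mul_one])
  -- the matrix `x Q⁻¹`
  have hxQ : T.x * mC T.Q⁻¹ = g * (x0 1 q * B0 1 q) * gᵀ := by
    have e1 : (B0 1 q * (gᵀ * mC T.Q)) * g = 1 := by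
      rw [Matrix.mul_assoc, gQ, B0_sq']
    have e2 : B0 1 q * (gᵀ * mC T.Q) = gᴴ * T.H := by
      calc B0 1 q * (gᵀ * mC T.Q) = (B0 1 q * (gᵀ * mC T.Q)) * (g * (gᴴ * T.H)) := by
            rw [gH, Matrix.mul_one]
        _ = gᴴ * T.H := by rw [← Matrix.mul_assoc, e1, Matrix.one_mul]
    have e3 : g * (B0 1 q * (gᵀ * mC T.Q)) = 1 := by rw [e2, gH]
    calc T.x * mC T.Q⁻¹ = T.x * (g * (B0 1 q * (gᵀ * mC T.Q))) * mC T.Q⁻¹ := by
          rw [e3, Matrix.mul_one]
      _ = (T.x * g) * B0 1 q * gᵀ * (mC T.Q * mC T.Q⁻¹) := by simp only [Matrix.mul_assoc]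
      _ = g * (x0 1 q * B0 1 q) * gᵀ := by
          rw [Q_mul_inv T g gH, Matrix.mul_one, gx]; simp only [Matrix.mul_assoc]
  have hent : ∀ i j, (T.x * mC T.Q⁻¹) i j = om i * ob j - ob i * om j := by
    intro i j
    have hB : ∀ s t, (x0 1 q * B0 1 q) s t =
        (if s = Sum.inl 0 ∧ t = Sum.inr (Sum.inr 0) then 1 else 0) -
        (if s = Sum.inr (Sum.inr 0) ∧ t = Sum.inl 0 then 1 else 0) := by
      intro s t
      have hd : x0 1 q = Matrix.diagonal
          (Sum.elim (fun _ => (1 : ℂ)) (Sum.elim (fun _ => 0) (fun _ => -1))) := by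
        unfold x0 big0
        ext i j
        rcases i with i | i | i <;> rcases j with j | j | j <;>
          simp [fromBlocks, Matrix.one_apply, Matrix.diagonal_apply, eq_comm] <;>
          split_ifs <;> simp_all
      rw [hd, Matrix.diagonal_mul]
      rcases s with s | s | s
      · have := Subsingleton.elim s 0; subst this
        rcases t with t | t | t
        · simp [B0, fromBlocks]
        · simp [B0, fromBlocks, fromCols]
        · have := Subsingleton.elim t 0; subst this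
          simp [B0, fromBlocks, fromCols]
      · rcases t with t | t | t <;> simp
      · have := Subsingleton.elim s 0; subst this
        rcases t with t | t | t
        · have := Subsingleton.elim t 0; subst this
          have e : B0 1 q (Sum.inr (Sum.inr 0)) (Sum.inl 0) = 1 := rfl
          simp [e]
        · simp [B0, fromBlocks]
        · simp [B0, fromBlocks]
    rw [hxQ, Matrix.mul_apply]
    have h5 : ∀ t, (g * (x0 1 q * B0 1 q)) i t =
        (if t = Sum.inr (Sum.inr 0) then om i else 0) - (if t = Sum.inl 0 then ob i else 0) := by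
      intro t
      rw [Matrix.mul_apply]
      simp only [hB, mul_sub, Finset.sum_sub_distrib, mul_ite, mul_one, mul_zero]
      congr 1
      · by_cases ht : t = Sum.inr (Sum.inr 0)
        · simp [ht, om]
        · simp [ht]
      · by_cases ht : t = Sum.inl 0
        · simp [ht, ob]
        · simp [ht]
    simp only [h5, sub_mul, Finset.sum_sub_distrib, ite_mul, zero_mul, Matrix.transpose_apply]
    simp [om, ob]
  rw [key]
  have e4 : GG G ob om = ∑ i, ∑ j, (ob i * om j) • mC (G i j) := rfl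
  have e5 : GG G om ob = ∑ i, ∑ j, (om i * ob j) • mC (G i j) := rfl
  rw [e4, e5, ← Finset.sum_sub_distrib, Finset.smul_sum]
  refine Finset.sum_congr rfl fun i _ => ?_
  rw [← Finset.sum_sub_distrib, Finset.smul_sum]
  refine Finset.sum_congr rfl fun j _ => ?_
  rw [← sub_smul, smul_smul, hent]

end

end Pool.Agent.W101.KS
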